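import Mathlib
import Pool.Agent.H88.Oh.Graph

set_option autoImplicit false

/-!
# Exact generalized Ohba numbers `τ_s(s+2, b)`

The definitions are in `Pool.Graph.R_pool_sql_team_ae5b0c61.H20.OhDefs`: `JG t a b` is the join
`K_t ∨ K_{a,b}`, `Choosable G k` says that all lists of size `k` allow a proper colouring,
`chl G` is the list chromatic number and
`tau s a b = sInf {t | chl (JG t a b) ≤ (JG t a b).chromaticNumber + s}`.
-/

namespace Pool.Agent.Results.MP_abf9c7_co.ExactSmallPart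

open H20.Oh

/-- For all `s ≥ 0` and `b ≥ 1`: `χ_ℓ(K_t ∨ K_{s+2,b}) - χ(K_t ∨ K_{s+2,b}) ≤ s` holds exactly when
`b < C(t+s+2, t+1) (t+s+2)^(s+1)`; it holds for some `t`; and `τ_s(s+2,b) = l` holds exactly when
`C(l+s+1, l) (l+s+1)^(s+1) ≤ b` (or `l = 0`) and `b < C(l+s+2, l+1) (l+s+2)^(s+1)`. -/
theorem result (s b : ℕ) (hb : 1 ≤ b) :
    (∀ t, (chl (JG t (s + 2) b) : ℕ∞) ≤ (JG t (s + 2) b).chromaticNumber + s ↔
      b < (t + s + 2).choose (t + 1) * (t + s + 2) ^ (s + 1)) ∧
    (∃ t, (chl (JG t (s + 2) b) : ℕ∞) ≤ (JG t (s + 2) b).chromaticNumber + s) ∧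
    ∀ l, tau s (s + 2) b = l ↔
      (l = 0 ∨ (l + s + 1).choose l * (l + s + 1) ^ (s + 1) ≤ b) ∧
        b < (l + s + 2).choose (l + 1) * (l + s + 2) ^ (s + 1) := by
  have h1 : ∀ t, (chl (JG t (s + 2) b) : ℕ∞) ≤ (JG t (s + 2) b).chromaticNumber + s ↔
      b < (t + s + 2).choose (t + 1) * (t + s + 2) ^ (s + 1) := by
    intro t
    rw [← Pool.Agent.H88.Oh.choosable_iff, ← chl_le, chrom t (s + 2) b (by omega) hb,
      ← Nat.cast_add, Nat.cast_le]
    omega
  set T : ℕ → ℕ := fun t => (t + s + 2).choose (t + 1) * (t + s + 2) ^ (s + 1) with hT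
  have hmono : Monotone T := by
    apply monotone_nat_of_le_succ
    intro t
    simp only [hT]
    apply Nat.mul_le_mul
    · have := Nat.choose_succ_succ (t + s + 2) (t + 1)
      have e : t + 1 + s + 2 = (t + s + 2) + 1 := by ring
      rw [e, this]
      omega
    · exact Nat.pow_le_pow_left (by omega) _
  have hbT : b < T b := by
    simp only [hT]
    have e1 : 1 ≤ (b + s + 2).choose (b + 1) := Nat.choose_pos (by omega)
    have e2 : b + s + 2 ≤ (b + s + 2) ^ (s + 1) := Nat.le_self_pow (by omega) _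
    calc b < b + s + 2 := by omega
      _ ≤ 1 * (b + s + 2) ^ (s + 1) := by omega
      _ ≤ _ := Nat.mul_le_mul_right _ e1
  have hne : {t | (chl (JG t (s + 2) b) : ℕ∞) ≤
      (JG t (s + 2) b).chromaticNumber + s}.Nonempty := ⟨b, (h1 b).mpr hbT⟩
  have h2 : ∀ t, tau s (s + 2) b ≤ t ↔ b < T t := by
    intro t
    constructor
    · intro h
      exact lt_of_lt_of_le ((h1 _).mp (Nat.sInf_mem hne)) (hmono h)
    · intro h
      exact Nat.sInf_le ((h1 t).mpr h)
  refine ⟨h1, hne, fun l => ?_⟩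
  have h3 := h2 l
  rcases Nat.eq_zero_or_pos l with rfl | hl
  · simp only [hT] at h3
    rw [← h3]
    simp
  · obtain ⟨l', rfl⟩ : ∃ l', l = l' + 1 := ⟨l - 1, by omega⟩
    have h4 := h2 l'
    have e : (l' + 1 + s + 1).choose (l' + 1) * (l' + 1 + s + 1) ^ (s + 1) = T l' := by
      have : l' + 1 + s + 1 = l' + s + 2 := by ring
      simp only [hT, this]
    rw [e]
    constructor
    · intro h
      refine ⟨Or.inr ?_, h3.mp h.le⟩
      by_contra hcon
      have := h4.mpr (not_le.mp hcon)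
      omega
    · rintro ⟨h5 | h5, h6⟩
      · omega
      · have h7 := h3.mpr h6
        have h8 : ¬ tau s (s + 2) b ≤ l' := fun h => absurd (h4.mp h) (not_lt.mpr h5)
        omega

end Pool.Agent.Results.MP_abf9c7_co.ExactSmallPart
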